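import Mathlib

/-! Groups with many abelian complements: counting lemmas for the PCP theorem (STGQ). -/

open Subgroup

namespace Pool.Agent.Helper82.ST

variable {V : Type*} [Group V] [Finite V] {ι : Type*}

lemma sum_card_sub_one_le (J : Finset ι) (D : ι → Subgroup V) (W : Subgroup V)
    (hW : ∀ j ∈ J, D j ≤ W) (hd : ∀ i ∈ J, ∀ j ∈ J, i ≠ j → Disjoint (D i) (D j)) :
    ∑ j ∈ J, (Nat.card (D j) - 1) ≤ Nat.card W - 1 := by
  classical
  have := Fintype.ofFinite V
  have key : ∀ K : Subgroup V, (Finset.univ.filter (fun x : V => x ∈ K ∧ x ≠ 1)).card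
      = Nat.card K - 1 := by
    intro K
    have h1 : (Finset.univ.filter (fun x : V => x ∈ K ∧ x ≠ 1))
        = (Finset.univ.filter (fun x : V => x ∈ K)).erase 1 := by
      ext x
      simp [and_comm]
    rw [h1, Finset.card_erase_of_mem (by simp [K.one_mem]), Nat.card_eq_fintype_card,
      Fintype.card_subtype]
  rw [← key W]
  calc ∑ j ∈ J, (Nat.card (D j) - 1)
      = ∑ j ∈ J, (Finset.univ.filter (fun x : V => x ∈ D j ∧ x ≠ 1)).card := by
        simp_rw [key]
    _ = (J.biUnion (fun j => Finset.univ.filter (fun x : V => x ∈ D j ∧ x ≠ 1))).card := by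
        rw [Finset.card_biUnion]
        intro i hi j hj hij
        simp only [Function.onFun]
        rw [Finset.disjoint_left]
        intro x hx hx'
        simp only [Finset.mem_filter, Finset.mem_univ, true_and] at hx hx'
        exact hx.2 ((Subgroup.disjoint_def.mp (hd i hi j hj hij)) hx.1 hx'.1)
    _ ≤ _ := by
        apply Finset.card_le_card
        intro x hx
        simp only [Finset.mem_biUnion, Finset.mem_filter, Finset.mem_univ, true_and] at hx ⊢
        obtain ⟨j, hj, hx1, hx2⟩ := hx
        exact ⟨hW j hj hx1, hx2⟩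

/-- number of pairwise complementary subgroups -/
lemma card_le_of_complements (J : Finset ι) (D : ι → Subgroup V)
    (hd : ∀ i ∈ J, ∀ j ∈ J, i ≠ j → Disjoint (D i) (D j))
    (hc : ∀ i ∈ J, ∀ j ∈ J, i ≠ j → Nat.card (D i) * Nat.card (D j) = Nat.card V)
    (hV : 1 < Nat.card V) {i : ι} (hi : i ∈ J) : J.card ≤ 1 + (D i).index := by
  classical
  have hidx : 1 ≤ (D i).index := Nat.one_le_iff_ne_zero.mpr (Subgroup.index_ne_zero_of_finite)
  rcases Nat.lt_or_ge 2 J.card with h3 | h3
  swap
  · omega
  set m := Nat.card (D i) with hm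
  have hmpos : 0 < m := Nat.card_pos
  have heq : ∀ j ∈ J, Nat.card (D j) = m := by
    intro j hj
    rcases eq_or_ne i j with rfl | hij
    · rfl
    · obtain ⟨k, hk, hkij⟩ : ∃ k ∈ J, k ∉ ({i, j} : Finset ι) := by
        by_contra hcon
        push Not at hcon
        have : J ⊆ ({i, j} : Finset ι) := fun k hk => hcon k hk
        have h4 := Finset.card_le_card this
        have h5 : ({i, j} : Finset ι).card ≤ 2 := Finset.card_le_two
        omega
      simp only [Finset.mem_insert, Finset.mem_singleton, not_or] at hkij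
      have h1 := hc i hi k hk (Ne.symm hkij.1)
      have h2 := hc j hj k hk (Ne.symm hkij.2)
      have h3 : Nat.card (D j) * Nat.card (D k) = Nat.card (D i) * Nat.card (D k) := by
        rw [h1, h2]
      exact Nat.eq_of_mul_eq_mul_right Nat.card_pos h3
  obtain ⟨j, hj, hji⟩ : ∃ j ∈ J, j ≠ i := by
    by_contra hcon
    push Not at hcon
    have : J ⊆ ({i} : Finset ι) := fun k hk => by simp [hcon k hk]
    have h4 := Finset.card_le_card this
    simp at h4
    omega
  have hmm : m * m = Nat.card V := by
    have := hc i hi j hj (Ne.symm hji)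
    rw [heq j hj] at this
    exact this
  have hidx' : (D i).index = m := by
    have := (D i).card_mul_index
    rw [← hmm] at this
    exact Nat.eq_of_mul_eq_mul_left hmpos this
  have hm1 : 1 < m := by
    by_contra hcon
    have : m = 1 := by omega
    rw [this] at hmm
    omega
  have hsum := sum_card_sub_one_le J D ⊤ (fun _ _ => le_top) hd
  rw [Finset.sum_congr rfl (fun j hj => by rw [heq j hj]), Finset.sum_const, smul_eq_mul,
    Subgroup.card_top, ← hmm] at hsum
  rw [hidx']
  clear_value m
  obtain ⟨m', rfl⟩ : ∃ m', m = m' + 1 := ⟨m - 1, by omega⟩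
  have e1 : (m' + 1) * (m' + 1) - 1 = (m' + 2) * m' := by
    have : (m' + 1) * (m' + 1) = (m' + 2) * m' + 1 := by ring
    omega
  rw [e1, Nat.add_sub_cancel] at hsum
  have := Nat.le_of_mul_le_mul_right hsum (by omega)
  omega

/-- abelian subgroups with pairwise product the whole nonabelian group -/
theorem AB {Q : Type*} [Group Q] [Finite Q] (J : Finset ι) (B : ι → Subgroup Q)
    (hab : ∀ i ∈ J, ∀ x ∈ B i, ∀ y ∈ B i, x * y = y * x)
    (hprod : ∀ i ∈ J, ∀ j ∈ J, i ≠ j → ∀ g : Q, ∃ a ∈ B i, ∃ b ∈ B j, g = a * b)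
    (hQ : ¬ ∀ x y : Q, x * y = y * x) {i : ι} (hi : i ∈ J) :
    J.card ≤ 1 + (B i ⊔ center Q).index := by
  classical
  set f := QuotientGroup.mk' (center Q) with hf
  have hker : f.ker = center Q := QuotientGroup.ker_mk' _
  have hsurj : Function.Surjective f := QuotientGroup.mk'_surjective _
  have hidx : ((B i).map f).index = (B i ⊔ center Q).index := by
    rw [Subgroup.index_map, hker, MonoidHom.range_eq_top.mpr hsurj, Subgroup.index_top, mul_one]
  rw [← hidx]
  have hdis : ∀ i ∈ J, ∀ j ∈ J, i ≠ j → Disjoint ((B i).map f) ((B j).map f) := by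
    intro i hi j hj hij
    rw [Subgroup.disjoint_def]
    intro x hxi hxj
    obtain ⟨a, ha, rfl⟩ := hxi
    obtain ⟨b, hb, hab'⟩ := hxj
    have hz : a⁻¹ * b ∈ center Q := by
      rw [← hker, MonoidHom.mem_ker, map_mul, map_inv, hab', inv_mul_cancel]
    have hacen : a ∈ center Q := by
      rw [Subgroup.mem_center_iff]
      intro g
      obtain ⟨c, hc, d, hd, rfl⟩ := hprod i hi j hj hij g
      have h1 : c * a = a * c := hab i hi c hc a ha
      have h2 : d * a = a * d := by
        have hba : a = b * (a⁻¹ * b)⁻¹ := by group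
        have h3 : d * b = b * d := hab j hj d hd b hb
        have h4 : d * (a⁻¹ * b)⁻¹ = (a⁻¹ * b)⁻¹ * d :=
          (Subgroup.mem_center_iff.mp (inv_mem hz) d)
        rw [hba]
        calc d * (b * (a⁻¹ * b)⁻¹) = (d * b) * (a⁻¹ * b)⁻¹ := by group
          _ = b * (d * (a⁻¹ * b)⁻¹) := by rw [h3]; group
          _ = b * (a⁻¹ * b)⁻¹ * d := by rw [h4]; group
      calc c * d * a = c * (d * a) := by group
        _ = (c * a) * d := by rw [h2]; group
        _ = a * (c * d) := by rw [h1]; group
    rwa [← hker, MonoidHom.mem_ker] at hacen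
  apply card_le_of_complements J (fun i => (B i).map f) hdis _ _ hi
  · intro i hi j hj hij
    have hc : IsComplement' ((B i).map f) ((B j).map f) := by
      apply Subgroup.isComplement'_of_disjoint_and_mul_eq_univ (hdis i hi j hj hij)
      rw [Set.eq_univ_iff_forall]
      intro x
      obtain ⟨g, rfl⟩ := hsurj x
      obtain ⟨a, ha, b, hb, rfl⟩ := hprod i hi j hj hij g
      rw [map_mul]
      exact Set.mul_mem_mul (Subgroup.mem_map_of_mem f ha) (Subgroup.mem_map_of_mem f hb)
    exact hc.card_mul_card
  · by_contra hcon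
    apply hQ
    have h1 : Nat.card (Q ⧸ center Q) ≤ 1 := by omega
    have h2 : (center Q).index = 1 := by
      have : (center Q).index ≠ 0 := Subgroup.index_ne_zero_of_finite
      have h3 : (center Q).index = Nat.card (Q ⧸ center Q) := rfl
      omega
    rw [Subgroup.index_eq_one] at h2
    intro x y
    have hx : y ∈ center Q := by rw [h2]; trivial
    exact Subgroup.mem_center_iff.mp hx x

end Pool.Agent.Helper82.ST
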