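import Pool.Agent.Helper90.ST.Defs
import Pool.Agent.Helper82.ST.AB

set_option autoImplicit false

/-! Piece AB of the proof of S09391 -/

open Subgroup

namespace Pool.Agent.Helper90.ST

theorem abelian_family_card {Q κ : Type} [Group Q] [Finite Q] [Finite κ] (B : κ → Subgroup Q)
    (hcomm : ∀ i, ∀ a ∈ B i, ∀ b ∈ B i, a * b = b * a)
    (hprod : ∀ i j, i ≠ j → ∀ g : Q, ∃ a ∈ B i, ∃ b ∈ B j, g = a * b)
    (hnc : ∃ x y : Q, x * y ≠ y * x) (i : κ) :
    Nat.card κ ≤ 1 + (B i ⊔ Subgroup.center Q).index := by
  classical
  have := Fintype.ofFinite κ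
  have h := Helper82.ST.AB (Finset.univ : Finset κ) B (fun i _ => hcomm i)
    (fun i _ j _ hij => hprod i j hij)
    (by
      obtain ⟨x, y, hxy⟩ := hnc
      intro hall
      exact hxy (hall x y)) (Finset.mem_univ i)
  rw [Finset.card_univ, ← Nat.card_eq_fintype_card] at h
  exact h

theorem card_mul_relIndex' {G : Type} [Group G] {H K : Subgroup G} (h : H ≤ K) :
    Nat.card H * H.relIndex K = Nat.card K := by
  rw [← Subgroup.relIndex_bot_left H, ← Subgroup.relIndex_bot_left K]
  exact Subgroup.relIndex_mul_relIndex _ _ _ bot_le h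

theorem isPCP_mul_eq {G ι : Type} [Group G] [Finite G] {H : ι → Subgroup G} {s : ℕ}
    (h : IsPCP H s) {i j : ι} (hij : i ≠ j) (g : G) : ∃ a ∈ H i, ∃ b ∈ H j, g = a * b := by
  have hc : IsComplement' (H i) (H j) := by
    apply Subgroup.isComplement'_of_card_mul_and_disjoint
    · rw [h.cardH, h.cardH, h.cardG, sq]
    · rw [Subgroup.disjoint_def]
      intro x hx hx'
      exact h.disj i j hij x hx hx'
  obtain ⟨⟨a, b⟩, hab⟩ := hc.2 g
  exact ⟨a, a.2, b, b.2, hab.symm⟩

theorem abelian_components {G κ : Type} [Group G] [Finite κ] {p : ℕ} [Fact p.Prime]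
    (hp : IsPGroup p G) (B : κ → Subgroup G) {s : ℕ} (hs : 1 < s) (h : IsPCP B s)
    (hcomm : ∀ i, ∀ a ∈ B i, ∀ b ∈ B i, a * b = b * a)
    (hnc : ∃ x y : G, x * y ≠ y * x) : (Nat.card κ - 1) ^ 2 ≤ s := by
  classical
  have hfin : Finite G := by
    apply Nat.finite_of_card_ne_zero
    rw [h.cardG]
    positivity
  have := Fintype.ofFinite κ
  rcases Nat.lt_or_ge 2 (Nat.card κ) with h3 | h3
  swap
  · have : Nat.card κ - 1 ≤ 1 := by omega
    calc (Nat.card κ - 1) ^ 2 ≤ 1 ^ 2 := Nat.pow_le_pow_left this 2
      _ ≤ s := by omega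
  have hne : Nonempty κ := by
    by_contra hcon
    rw [not_nonempty_iff] at hcon
    simp at h3
  obtain ⟨i⟩ := hne
  -- products of central elements
  have hprod : ∀ i j, i ≠ j → ∀ g : G, ∃ a ∈ B i, ∃ b ∈ B j, g = a * b :=
    fun i j hij g => isPCP_mul_eq h hij g
  have hA : Nat.card κ ≤ 1 + (B i ⊔ center G).index :=
    abelian_family_card B hcomm hprod hnc i
  have hnt : Nontrivial G := by
    obtain ⟨x, y, hxy⟩ := hnc
    exact ⟨⟨x * y, y * x, hxy⟩⟩
  have hZ : 1 < Nat.card (center G) := by
    have := hp.center_nontrivial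
    exact Finite.one_lt_card
  have hcen : ∀ i j, i ≠ j → ∀ a ∈ B i, ∀ b ∈ B j, a * b ∈ center G → a ∈ center G := by
    intro i j hij a ha b hb hab
    rw [Subgroup.mem_center_iff]
    intro g
    obtain ⟨c, hc, d, hd, rfl⟩ := hprod i j hij g
    have h1 : c * a = a * c := hcomm i c hc a ha
    have h2 : d * a = a * d := by
      have h3 : d * b = b * d := hcomm j d hd b hb
      have h4 : d * (a * b) = (a * b) * d := Subgroup.mem_center_iff.mp hab d
      have h5 : d * a * b = a * d * b := by
        calc d * a * b = d * (a * b) := by group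
          _ = (a * b) * d := h4
          _ = a * (b * d) := by group
          _ = a * d * b := by rw [← h3]; group
      exact mul_right_cancel h5
    calc c * d * a = c * (d * a) := by group
      _ = (c * a) * d := by rw [h2]; group
      _ = a * (c * d) := by rw [h1]; group
  have hB : Nat.card κ ≤ 1 + ((B i).subgroupOf (center G)).index := by
    have hdis : ∀ i ∈ (Finset.univ : Finset κ), ∀ j ∈ (Finset.univ : Finset κ), i ≠ j →
        Disjoint ((B i).subgroupOf (center G)) ((B j).subgroupOf (center G)) := by
      intro i _ j _ hij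
      rw [Subgroup.disjoint_def]
      intro x hx hx'
      rw [Subgroup.mem_subgroupOf] at hx hx'
      have := h.disj i j hij x hx hx'
      exact Subtype.ext this
    have h := Helper82.ST.card_le_of_complements (Finset.univ : Finset κ)
      (fun i => (B i).subgroupOf (center G)) hdis
      (by
        intro i hi j hj hij
        have hc : IsComplement' ((B i).subgroupOf (center G)) ((B j).subgroupOf (center G)) := by
          apply Subgroup.isComplement'_of_disjoint_and_mul_eq_univ (hdis i hi j hj hij)
          rw [Set.eq_univ_iff_forall]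
          rintro ⟨z, hz⟩
          obtain ⟨a, ha, b, hb, hab⟩ := hprod i j hij z
          have ha' : a ∈ center G := hcen i j hij a ha b hb (hab ▸ hz)
          have hb' : b ∈ center G := by
            have : b = a⁻¹ * z := by rw [hab]; group
            rw [this]
            exact mul_mem (inv_mem ha') hz
          refine ⟨⟨a, ha'⟩, ?_, ⟨b, hb'⟩, ?_, ?_⟩
          · exact ha
          · exact hb
          · exact Subtype.ext hab.symm
        exact hc.card_mul_card) hZ (Finset.mem_univ i)
    rw [Finset.card_univ, ← Nat.card_eq_fintype_card] at h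
    exact h
  -- z' * index = s
  have hmul : ((B i).subgroupOf (center G)).index * (B i ⊔ center G).index = s := by
    have e1 : ((B i).subgroupOf (center G)).index = (B i).relIndex (center G) := rfl
    have e2 : Nat.card (center G) * (center G).relIndex (B i ⊔ center G)
        = Nat.card (B i ⊔ center G : Subgroup G) := card_mul_relIndex' le_sup_right
    rw [Subgroup.relIndex_sup_right] at e2
    have e3 : Nat.card (B i ⊓ center G : Subgroup G) * (B i ⊓ center G).relIndex (center G)
        = Nat.card (center G) := card_mul_relIndex' inf_le_right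
    rw [Subgroup.inf_relIndex_right] at e3
    have e4 : Nat.card (B i ⊓ center G : Subgroup G) * (B i ⊓ center G).relIndex (B i)
        = Nat.card (B i) := card_mul_relIndex' inf_le_left
    rw [Subgroup.inf_relIndex_left] at e4
    have e5 : Nat.card (B i ⊔ center G : Subgroup G) * (B i ⊔ center G).index = s ^ 2 := by
      rw [Subgroup.card_mul_index, h.cardG]
    rw [h.cardH] at e4
    have hspos : 0 < s := by omega
    -- card (B ⊔ Z) = s * relIndex
    have e6 : Nat.card (B i ⊔ center G : Subgroup G) = s * (B i).relIndex (center G) := by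
      rw [← e2, ← e3, ← e4]
      ring
    rw [e6, mul_assoc, sq] at e5
    rw [e1]
    exact Nat.eq_of_mul_eq_mul_left hspos e5
  set x := ((B i).subgroupOf (center G)).index
  set y := (B i ⊔ center G).index
  have hx : Nat.card κ - 1 ≤ x := by omega
  have hy : Nat.card κ - 1 ≤ y := by omega
  calc (Nat.card κ - 1) ^ 2 = (Nat.card κ - 1) * (Nat.card κ - 1) := sq _
    _ ≤ x * y := Nat.mul_le_mul hx hy
    _ = s := hmul

end Pool.Agent.Helper90.ST
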