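import Pool.Agent.Helper51.ST.PG
import Pool.Agent.Helper82.ST.ABPiece

set_option autoImplicit false

/-! Piece JN of the proof of S09391 -/

open Subgroup

namespace Pool.Agent.Helper90.ST


theorem card_J_le {p : ℕ} [Fact p.Prime] {G ι : Type} [Group G] [Finite G] [Fintype ι]
    (hG : IsPGroup p G) (H : ι → Subgroup G)
    (hprod : ∀ i j, i ≠ j → ∀ g : G, ∃ a ∈ H i, ∃ b ∈ H j, g = a * b)
    (N : Subgroup G) (hN : N.Normal) (hNM : N ≤ PhiP p G) (hidx : N.relIndex (PhiP p G) = p)
    (J : Finset ι) (hJ : ∀ i ∈ J, H i ⊓ PhiP p G ≤ N) (i : ι) (hi : i ∈ J) :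
    J.card ≤ 1 + (H i ⊔ PhiP p G).index := by
  classical
  have hPhi := PhiP_normal p G
  have hidx1 : 1 ≤ (H i ⊔ PhiP p G).index :=
    Nat.one_le_iff_ne_zero.mpr Subgroup.index_ne_zero_of_finite
  rcases Nat.lt_or_ge 1 J.card with h1 | h1
  swap
  · omega
  set f := QuotientGroup.mk' N with hf
  have hker : f.ker = N := QuotientGroup.ker_mk' _
  have hsurj : Function.Surjective f := QuotientGroup.mk'_surjective _
  have hmem : ∀ x : G, f x = 1 ↔ x ∈ N := fun x => by
    have h := MonoidHom.mem_ker (f := f) (x := x)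
    rw [hker] at h
    exact h.symm
  -- commutation inside the components
  have hc : ∀ j : {j // j ∈ J}, ∀ a ∈ (H j).map f, ∀ b ∈ (H j).map f, a * b = b * a := by
    rintro ⟨j, hj⟩ _ ⟨a, ha, rfl⟩ _ ⟨b, hb, rfl⟩
    have h2 : a * b * a⁻¹ * b⁻¹ ∈ N := by
      apply hJ j hj
      refine ⟨?_, comm_mem_PhiP p a b⟩
      exact (H j).mul_mem ((H j).mul_mem ((H j).mul_mem ha hb) ((H j).inv_mem ha))
        ((H j).inv_mem hb)
    rw [← hmem] at h2
    simp only [map_mul, map_inv] at h2
    rw [mul_inv_eq_one, mul_inv_eq_iff_eq_mul] at h2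
    exact h2
  have hp' : ∀ i j : {j // j ∈ J}, i ≠ j → ∀ g : G ⧸ N, ∃ a ∈ (H i).map f,
      ∃ b ∈ (H j).map f, g = a * b := by
    intro i j hij g
    obtain ⟨g, rfl⟩ := hsurj g
    obtain ⟨a, ha, b, hb, rfl⟩ := hprod i j (fun h => hij (Subtype.ext h)) g
    exact ⟨f a, Subgroup.mem_map_of_mem f ha, f b, Subgroup.mem_map_of_mem f hb, map_mul f a b⟩
  have hnc : ∃ x y : G ⧸ N, x * y ≠ y * x := by
    by_contra hcon
    push Not at hcon
    obtain ⟨i, hi, j, hj, hij⟩ := Finset.one_lt_card.mp h1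
    have hle : PhiP p G ≤ N := by
      apply PhiP_le
      · intro x
        rw [← hmem, map_pow]
        obtain ⟨a, ha, b, hb, rfl⟩ := hprod i j hij x
        rw [map_mul, (show Commute (f a) (f b) from hcon (f a) (f b)).mul_pow, ← map_pow, ← map_pow,
          (hmem _).mpr (hJ i hi ⟨pow_mem ha p, pow_mem_PhiP p a⟩),
          (hmem _).mpr (hJ j hj ⟨pow_mem hb p, pow_mem_PhiP p b⟩), one_mul]
      · intro x y
        rw [← hmem]
        simp only [map_mul, map_inv]
        rw [hcon (f x) (f y)]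
        group
    have h3 : N.relIndex (PhiP p G) = 1 := Subgroup.relIndex_eq_one.mpr hle
    rw [h3] at hidx
    exact (Fact.out : p.Prime).one_lt.ne hidx
  have hmain := abelian_family_card (fun j : {j // j ∈ J} => (H j).map f) hc hp' hnc ⟨i, hi⟩
  have hcard : Nat.card {j // j ∈ J} = J.card := by
    rw [Nat.card_eq_fintype_card, Fintype.card_coe]
  rw [hcard] at hmain
  change J.card ≤ 1 + ((H i).map f ⊔ center (G ⧸ N)).index at hmain
  have hle : (H i ⊔ PhiP p G).map f ≤ (H i).map f ⊔ center (G ⧸ N) := by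
    rw [Subgroup.map_sup]
    apply sup_le_sup_left
    rintro _ ⟨k, hk, rfl⟩
    rw [Subgroup.mem_center_iff]
    intro g
    obtain ⟨g, rfl⟩ := hsurj g
    have h4 := comm_mem_of_relIndex hG N (PhiP p G) hN hPhi hNM hidx k hk g
    rw [← hmem] at h4
    simp only [map_mul, map_inv] at h4
    have h5 : f k * f g = f g * f k := by
      calc f k * f g = f g * f k * ((f k)⁻¹ * (f g)⁻¹ * f k * f g) := by group
        _ = f g * f k := by rw [h4, mul_one]
    exact h5.symm
  have h6 : ((H i ⊔ PhiP p G).map f).index = (H i ⊔ PhiP p G).index := by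
    rw [Subgroup.index_map, hker, MonoidHom.range_eq_top.mpr hsurj, Subgroup.index_top, mul_one,
      sup_eq_left.mpr (hNM.trans le_sup_right)]
  have h7 : ((H i).map f ⊔ center (G ⧸ N)).index ≤ ((H i ⊔ PhiP p G).map f).index :=
    Subgroup.index_antitone hle
  rw [h6] at h7
  omega

end Pool.Agent.Helper90.ST
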