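import Pool.Agent.Helper51.ST.PG
import Pool.Agent.Helper68.ST.HC
import Pool.Agent.Helper82.ST.ABPiece

set_option autoImplicit false

/-! Piece CLUB of the proof of S09391 -/

open Subgroup

namespace Pool.Agent.Helper90.ST

/-- one step up: a normal subgroup `L1 > L` inside `M` with `|L1 : L| = p` -/
theorem exists_step_up {p : ℕ} [Fact p.Prime] {G : Type} [Group G] [Finite G]
    (hG : IsPGroup p G) (L M : Subgroup G) (hL : L.Normal) (hM : M.Normal) (hLM : L < M) :
    ∃ L1 : Subgroup G, L1.Normal ∧ L < L1 ∧ L1 ≤ M ∧ L.relIndex L1 = p := by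
  classical
  have hfin : Finite (Subgroup G) := inferInstance
  obtain ⟨L1, ⟨hL1n, hL1, hL1M⟩, hmin⟩ := WellFounded.has_min
    (wellFounded_lt (α := Subgroup G)) {K : Subgroup G | K.Normal ∧ L < K ∧ K ≤ M}
    ⟨M, hM, hLM, le_rfl⟩
  obtain ⟨N, hN, hLN, hNL1, hidx⟩ := exists_index_p hG L L1 hL hL1n hL1
  have hNL : N = L := by
    by_contra hne
    exact hmin N ⟨hN, lt_of_le_of_ne hLN (Ne.symm hne), hNL1.le.trans hL1M⟩ hNL1
  subst hNL
  exact ⟨L1, hL1n, hL1, hL1M, hidx⟩

/-- the complement attached to a new index -/
theorem new_complement {p : ℕ} [hp : Fact p.Prime] {G : Type} [Group G] [Finite G]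
    (hG : IsPGroup p G) (D L L1 M : Subgroup G) (hL1 : L1.Normal)
    (hLL1 : L < L1) (hL1M : L1 ≤ M) (hidx : L.relIndex L1 = p)
    (hDM : D ≤ M) (hD1 : D ⊔ L1 = M) (hD : D ⊔ L ≠ M) :
    (∀ m ∈ M, ∀ n ∈ D ⊔ L, m * n * m⁻¹ ∈ D ⊔ L) ∧ (D ⊔ L).relIndex M = p ∧
      (D ⊔ L) ⊓ L1 = L := by
  have hNM : D ⊔ L ≤ M := sup_le hDM (hLL1.le.trans hL1M)
  have hNL1 : (D ⊔ L) ⊔ L1 = M := by
    rw [sup_assoc, sup_eq_right.mpr hLL1.le, hD1]
  have hinf : (D ⊔ L) ⊓ L1 = L := by
    have h1 : L ≤ (D ⊔ L) ⊓ L1 := le_inf le_sup_right hLL1.le
    have h2 : L.relIndex ((D ⊔ L) ⊓ L1) * ((D ⊔ L) ⊓ L1).relIndex L1 = p := by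
      rw [Subgroup.relIndex_mul_relIndex _ _ _ h1 inf_le_right, hidx]
    rcases (Nat.dvd_prime hp.out).mp ⟨_, h2.symm⟩ with h3 | h3
    · exact le_antisymm (Subgroup.relIndex_eq_one.mp h3) h1
    · exfalso
      rw [h3] at h2
      have h4 : ((D ⊔ L) ⊓ L1).relIndex L1 = 1 :=
        Nat.eq_of_mul_eq_mul_left hp.out.pos (by rw [h2, mul_one])
      have h5 : L1 ≤ (D ⊔ L) ⊓ L1 := Subgroup.relIndex_eq_one.mp h4
      apply hD
      rw [← hNL1]
      exact (sup_eq_left.mpr (h5.trans inf_le_left)).symm
  have hrel : (D ⊔ L).relIndex M = p := by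
    have e1 : Nat.card L1 * L1.relIndex M = Nat.card M := card_mul_relIndex' hL1M
    have e2 : L1.relIndex M = L1.relIndex (D ⊔ L) := by
      conv_lhs => rw [← hNL1]
      exact Subgroup.relIndex_sup_right (H := D ⊔ L) (K := L1)
    have e3 : Nat.card (((D ⊔ L) ⊓ L1 : Subgroup G)) * ((D ⊔ L) ⊓ L1).relIndex (D ⊔ L)
        = Nat.card (D ⊔ L : Subgroup G) := card_mul_relIndex' inf_le_left
    rw [Subgroup.inf_relIndex_left, hinf] at e3
    have e4 : Nat.card L * L.relIndex L1 = Nat.card L1 := card_mul_relIndex' hLL1.le
    have e5 : Nat.card (D ⊔ L : Subgroup G) * (D ⊔ L).relIndex M = Nat.card M :=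
      card_mul_relIndex' hNM
    rw [hidx] at e4
    have e6 : Nat.card (D ⊔ L : Subgroup G) * (D ⊔ L).relIndex M
        = Nat.card (D ⊔ L : Subgroup G) * p := by
      rw [e5, ← e1, e2, ← e4, ← e3]
      ring
    exact Nat.eq_of_mul_eq_mul_left Nat.card_pos e6
  refine ⟨?_, hrel, hinf⟩
  -- normality in M
  have hMp : IsPGroup p M := hG.to_subgroup M
  have hsub : ((D ⊔ L).subgroupOf M).Normal := by
    apply Subgroup.normal_of_index_eq_minFac_card
    have h1 : ((D ⊔ L).subgroupOf M).index = p := hrel
    rw [h1]
    obtain ⟨n, hn⟩ := IsPGroup.iff_card.mp hMp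
    rw [hn]
    have hn0 : n ≠ 0 := by
      rintro rfl
      have h2 : Nat.card (D ⊔ L : Subgroup G) * p = 1 := by
        have e5 : Nat.card (D ⊔ L : Subgroup G) * (D ⊔ L).relIndex M = Nat.card M :=
          card_mul_relIndex' hNM
        rw [hrel, hn, pow_zero] at e5
        exact e5
      have := Nat.eq_one_of_mul_eq_one_left h2
      exact hp.out.one_lt.ne' this
    exact (hp.out.pow_minFac hn0).symm
  intro m hm n hn
  have := hsub.conj_mem ⟨n, hNM hn⟩ (by rw [Subgroup.mem_subgroupOf]; exact hn) ⟨m, hm⟩
  rw [Subgroup.mem_subgroupOf] at this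
  exact this

open Classical in
theorem club {p : ℕ} [Fact p.Prime] {G ι : Type} [Group G] [Finite G] [Fintype ι]
    (hG : IsPGroup p G) (H : ι → Subgroup G)
    (hprod : ∀ i j, i ≠ j → ∀ g : G, ∃ a ∈ H i, ∃ b ∈ H j, g = a * b)
    (M : Subgroup G) (hM : M.Normal)
    (hJ : ∀ N : Subgroup G, N.Normal → N ≤ M → N.relIndex M = p → ∀ J : Finset ι,
      (∀ i ∈ J, H i ⊓ M ≤ N) → ∀ i ∈ J, J.card ≤ 1 + (H i ⊔ M).index)
    (L : Subgroup G) (hL : L.Normal) (hLM : L ≤ M) :
    (∑ i ∈ Finset.univ.filter (fun i => (H i ⊓ M) ⊔ L ≠ M), (1 : ℝ) / (1 + (H i ⊔ M).index))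
      ≤ ((L.relIndex M : ℝ) - 1) / (p - 1) := by
  have hp := (Fact.out : p.Prime)
  have hp1 : (0 : ℝ) < p - 1 := by
    have : (1 : ℝ) < p := by exact_mod_cast hp.one_lt
    linarith
  generalize hn : L.relIndex M = n
  induction n using Nat.strong_induction_on generalizing L with
  | _ n ih =>
    rcases eq_or_lt_of_le hLM with hLM' | hLM'
    · subst hLM'
      have h1 : n = 1 := by rw [← hn, Subgroup.relIndex_self]
      rw [Finset.sum_eq_zero, h1]
      · simp
      · intro i hi
        exfalso
        rw [Finset.mem_filter] at hi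
        exact hi.2 (sup_eq_right.mpr inf_le_right)
    · obtain ⟨L1, hL1n, hLL1, hL1M, hidx⟩ := exists_step_up hG L M hL hM hLM'
      set x := L1.relIndex M with hx
      have hnx : p * x = n := by
        rw [← hn, ← hidx, hx]
        exact Subgroup.relIndex_mul_relIndex _ _ _ hLL1.le hL1M
      have hxpos : 0 < x := Nat.pos_of_ne_zero (by
        intro h0
        have h1 := card_mul_relIndex' hL1M
        rw [← hx, h0, mul_zero] at h1
        exact Nat.card_pos.ne h1)
      have hxn : x < n := by
        rw [← hnx]
        have := hp.two_le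
        nlinarith
      have ih1 := ih x hxn L1 hL1n hL1M rfl
      -- split
      set R := Finset.univ.filter (fun i => (H i ⊓ M) ⊔ L1 = M ∧ (H i ⊓ M) ⊔ L ≠ M) with hR
      have hsplit : Finset.univ.filter (fun i => (H i ⊓ M) ⊔ L ≠ M)
          = Finset.univ.filter (fun i => (H i ⊓ M) ⊔ L1 ≠ M) ∪ R := by
        ext i
        simp only [Finset.mem_filter, Finset.mem_univ, true_and, Finset.mem_union, hR]
        constructor
        · intro h
          by_cases h1 : (H i ⊓ M) ⊔ L1 = M
          · exact Or.inr ⟨h1, h⟩
          · exact Or.inl h1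
        · rintro (h | h)
          · intro h1
            apply h
            apply le_antisymm (sup_le inf_le_right hL1M)
            conv_lhs => rw [← h1]
            exact sup_le_sup_left hLL1.le _
          · exact h.2
      have hdisj : Disjoint (Finset.univ.filter (fun i => (H i ⊓ M) ⊔ L1 ≠ M)) R := by
        rw [Finset.disjoint_left]
        intro i hi hi'
        rw [Finset.mem_filter] at hi
        rw [hR, Finset.mem_filter] at hi'
        exact hi.2 hi'.2.1
      rw [hsplit, Finset.sum_union hdisj]
      -- the sum over R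
      set NN : ι → Subgroup G := fun i => (H i ⊓ M) ⊔ L with hNN
      have hRsum : ∑ i ∈ R, (1 : ℝ) / (1 + (H i ⊔ M).index) ≤ x := by
        rw [← Finset.sum_fiberwise_of_maps_to (s := R) (t := R.image NN) (g := NN)
          (fun i hi => Finset.mem_image_of_mem _ hi)]
        have hfib : ∀ N ∈ R.image NN, ∑ i ∈ R.filter (fun i => NN i = N),
            (1 : ℝ) / (1 + (H i ⊔ M).index) ≤ 1 := by
          intro N hN
          rcases Nat.lt_or_ge 1 (R.filter (fun i => NN i = N)).card with h1 | h1
          swap
          · calc ∑ i ∈ R.filter (fun i => NN i = N), (1 : ℝ) / (1 + (H i ⊔ M).index)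
                ≤ ∑ i ∈ R.filter (fun i => NN i = N), (1 : ℝ) := by
                  apply Finset.sum_le_sum
                  intro i _
                  rw [div_le_one (by positivity)]
                  have : (0 : ℝ) ≤ (H i ⊔ M).index := by positivity
                  linarith
              _ = (R.filter (fun i => NN i = N)).card := by simp
              _ ≤ 1 := by exact_mod_cast h1
          · obtain ⟨i, hi, j, hj, hij⟩ := Finset.one_lt_card.mp h1
            rw [Finset.mem_filter] at hi hj
            have hinv : ∀ i ∈ R, ∀ a ∈ H i, ∀ n ∈ NN i, a * n * a⁻¹ ∈ NN i := by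
              intro i _ a ha n hn
              have hle : NN i ≤ (NN i).comap (MulAut.conj a).toMonoidHom := by
                rw [hNN]
                apply sup_le
                · intro y hy
                  rw [Subgroup.mem_comap]
                  apply Subgroup.mem_sup_left
                  refine ⟨?_, ?_⟩
                  · simp only [MulEquiv.toMonoidHom_eq_coe, MonoidHom.coe_coe, MulAut.conj_apply]
                    exact (H i).mul_mem ((H i).mul_mem ha hy.1) ((H i).inv_mem ha)
                  · simp only [MulEquiv.toMonoidHom_eq_coe, MonoidHom.coe_coe, MulAut.conj_apply]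
                    exact hM.conj_mem y hy.2 a
                · intro y hy
                  rw [Subgroup.mem_comap]
                  apply Subgroup.mem_sup_right
                  simp only [MulEquiv.toMonoidHom_eq_coe, MonoidHom.coe_coe, MulAut.conj_apply]
                  exact hL.conj_mem y hy a
              have := hle hn
              rw [Subgroup.mem_comap] at this
              simpa only [MulEquiv.toMonoidHom_eq_coe, MonoidHom.coe_coe, MulAut.conj_apply]
                using this
            have hNnormal : N.Normal := by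
              constructor
              intro n hn g
              obtain ⟨a, ha, b, hb, rfl⟩ := hprod i j hij g
              have h2 : b * n * b⁻¹ ∈ N := by
                have := hinv j hj.1 b hb n (by rw [hj.2]; exact hn)
                rwa [hj.2] at this
              have h3 := hinv i hi.1 a ha (b * n * b⁻¹) (by rw [hi.2]; exact h2)
              rw [hi.2] at h3
              have e : a * b * n * (a * b)⁻¹ = a * (b * n * b⁻¹) * a⁻¹ := by group
              rw [e]
              exact h3
            have hiR := hi.1
            rw [hR, Finset.mem_filter] at hiR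
            have hcomp := new_complement hG (H i ⊓ M) L L1 M hL1n hLL1 hL1M hidx inf_le_right
              hiR.2.1 hiR.2.2
            have hNM : N ≤ M := by
              rw [← hi.2]
              exact sup_le inf_le_right hLM
            have hNp : N.relIndex M = p := by
              rw [← hi.2]
              exact hcomp.2.1
            have hcard := hJ N hNnormal hNM hNp (R.filter (fun i => NN i = N)) (by
              intro k hk
              rw [Finset.mem_filter] at hk
              rw [← hk.2]
              exact le_sup_left)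
            set c := (R.filter (fun i => NN i = N)).card with hc
            have hcpos : (0 : ℝ) < c := by
              have : 0 < c := by omega
              exact_mod_cast this
            calc ∑ i ∈ R.filter (fun i => NN i = N), (1 : ℝ) / (1 + (H i ⊔ M).index)
                ≤ ∑ i ∈ R.filter (fun i => NN i = N), (1 : ℝ) / c := by
                  apply Finset.sum_le_sum
                  intro k hk
                  apply one_div_le_one_div_of_le hcpos
                  have := hcard k hk
                  exact_mod_cast this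
              _ = 1 := by
                  rw [Finset.sum_const, ← hc, nsmul_eq_mul]
                  field_simp
        calc ∑ N ∈ R.image NN, ∑ i ∈ R.filter (fun i => NN i = N),
              (1 : ℝ) / (1 + (H i ⊔ M).index)
            ≤ ∑ N ∈ R.image NN, (1 : ℝ) := Finset.sum_le_sum hfib
          _ = (R.image NN).card := by simp
          _ ≤ x := by
            have h1 := card_complements_le M L1 L hM hL1n hL hLL1.le hL1M hidx
            have h2 : ((R.image NN : Finset (Subgroup G)) : Set (Subgroup G)) ⊆
                {N : Subgroup G | N ≤ M ∧ (∀ m ∈ M, ∀ n ∈ N, m * n * m⁻¹ ∈ N) ∧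
                  N.relIndex M = p ∧ N ⊓ L1 = L} := by
              intro N hN
              rw [Finset.mem_coe, Finset.mem_image] at hN
              obtain ⟨i, hi, rfl⟩ := hN
              rw [hR, Finset.mem_filter] at hi
              have hcomp := new_complement hG (H i ⊓ M) L L1 M hL1n hLL1 hL1M hidx inf_le_right
                hi.2.1 hi.2.2
              exact ⟨sup_le inf_le_right hLM, hcomp⟩
            have h3 := Set.ncard_le_ncard h2 (Set.toFinite _)
            rw [Set.ncard_coe_finset] at h3
            exact_mod_cast h3.trans h1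
      have hfin : ((n : ℝ) - 1) / (p - 1) = ((x : ℝ) - 1) / (p - 1) + x := by
        rw [← hnx]
        push_cast
        field_simp
        ring
      rw [hfin]
      exact add_le_add ih1 hRsum

end Pool.Agent.Helper90.ST
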